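import Pool.Agent.Lib_MP_f6e057_co.Assembly

/-!
# MP_f6e057_co: connectivity keeping trees, a linear degree bound for all trees and all k

Every `k`-connected graph `G` with `2 δ(G) ≥ 3k + 15m - 12` contains, for every tree `T` of order `m`,
a copy `T'` of `T` such that `G - V(T')` is `k`-connected.
-/

namespace Pool.Agent.Results.MP_f6e057_co.LinearAllTrees

open Pool.Agent.Lib_MP_f6e057_co

theorem result {V W : Type} [Fintype V] [Fintype W] (G : SimpleGraph V) [DecidableRel G.Adj]
    (T : SimpleGraph W) (hT : T.IsTree) (k : ℕ) (hk : 1 ≤ k) (hG : KConnected k G)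
    (hd : 3 * k + 15 * Fintype.card W ≤ 2 * G.minDegree + 12) :
    ∃ φ : W ↪ V, (∀ u v, T.Adj u v → G.Adj (φ u) (φ v)) ∧
      KConnected k (G.induce (Set.range φ)ᶜ) := by
  classical
  exact assembly G T hT hk hG hd

end Pool.Agent.Results.MP_f6e057_co.LinearAllTrees
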