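import Pool.Agent.Lib_MP_f6e057_co.LC.Final

/-!
# MP_f6e057_co: connectivity keeping trees, a bound with the exact coefficient of the order of the
tree and linear in the connectivity

For all `k` and all trees `T` of order `m`, every `k`-connected graph `G` with
`δ(G) ≥ m + 16k + 1` contains a copy `T'` of `T` such that `G - V(T')` is `k`-connected.
-/

namespace Pool.Agent.Results.MP_f6e057_co.NearOptimal

open Pool.Agent.Lib_MP_f6e057_co

theorem result {V W : Type} [Fintype V] [Fintype W] (G : SimpleGraph V) [DecidableRel G.Adj]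
    (T : SimpleGraph W) (hT : T.IsTree) (k : ℕ) (hk : 1 ≤ k) (hG : KConnected k G)
    (hd : Fintype.card W + 16 * k + 1 ≤ G.minDegree) :
    ∃ φ : W ↪ V, (∀ u v, T.Adj u v → G.Adj (φ u) (φ v)) ∧
      KConnected k (G.induce (Set.range φ)ᶜ) := by
  classical
  exact AC.linear G T hT hk hG hd

end Pool.Agent.Results.MP_f6e057_co.NearOptimal
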